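import Pool.Agent.helper35.DR.SpecA
import Pool.Agent.helper81.DI.SpecB

/-!
# Project dr: module HYC
-/

set_option autoImplicit false

namespace Pool.Agent.DR

open Pool.Agent.helper58.DC Pool.Agent.DI

theorem HYC (hB0 : Pool.Agent.DI.B0_stmt) : HYC_stmt := by
  intro p _
  refine ⟨?_, ?_⟩
  · intro A _ _ H h
    obtain ⟨P, hP, hc⟩ := h
    exact ⟨P.subgroupOf H, hP.comap_subtype, hB0.2.1 A P H hc⟩
  · intro A B _ _ _ f hf h
    obtain ⟨P, hP, hn, s, hs⟩ := h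
    refine ⟨P.map f, hP.map f, hn.map f hf, f s, ?_⟩
    intro y
    obtain ⟨x, rfl⟩ := hf y
    obtain ⟨k, hk⟩ := hs x
    refine ⟨k, ?_⟩
    rw [← map_zpow, ← map_mul]
    exact Subgroup.mem_map_of_mem f hk

end Pool.Agent.DR
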